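import Pool.Agent.W4.QD.Stms

/-! QD-COORD (helper4): coordinates of integers in an integral basis. -/

set_option autoImplicit false

namespace Pool.Agent.W688.QD

open NumberField Finset Pool.Agent.W4.QD

theorem t_COORD : S_COORD := by
  intro K _ _
  classical
  let b : Module.Basis (Fin (Module.finrank ℚ K)) ℤ (𝓞 K) :=
    Module.finBasisOfFinrankEq ℤ (𝓞 K) (RingOfIntegers.rank K)
  let bK : Module.Basis (Fin (Module.finrank ℚ K)) ℚ K :=
    b.localizationLocalization ℚ (nonZeroDivisors ℤ) K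
  have hrep : ∀ (δ : 𝓞 K) j, bK.repr (δ : K) j = (b.repr δ j : ℚ) := fun δ j =>
    b.localizationLocalization_repr_algebraMap ℚ (nonZeroDivisors ℤ) K δ j
  have hnd := traceForm_nondegenerate ℚ K
  let y : Fin (Module.finrank ℚ K) → K := fun j =>
    ((Algebra.traceForm ℚ K).toDual hnd).symm (bK.coord j)
  have hy : ∀ j (x : K), bK.repr x j = Algebra.trace ℚ K (y j * x) := by
    intro j x
    have h := LinearMap.BilinForm.apply_toDual_symm_apply (B := Algebra.traceForm ℚ K)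
      (hB := hnd) (bK.coord j) x
    rw [Algebra.traceForm_apply] at h
    rw [h]
    rfl
  refine ⟨1 + ∑ j, ∑ σ : K →ₐ[ℚ] ℂ, ‖σ (y j)‖, ?_, fun j => (b.coord j).toAddMonoidHom,
    ?_, ?_, ?_⟩
  · have : 0 ≤ ∑ j, ∑ σ : K →ₐ[ℚ] ℂ, ‖σ (y j)‖ := by positivity
    linarith
  · intro δ B hB hσ j
    have h1 : ((b.repr δ j : ℤ) : ℂ) = ∑ σ : K →ₐ[ℚ] ℂ, σ (y j * (δ : K)) := by
      have h2 := trace_eq_sum_embeddings (K := ℚ) (L := K) ℂ (x := y j * (δ : K))
      rw [← h2, ← hy, hrep]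
      simp
    have h3 : |((b.repr δ j : ℤ) : ℝ)| = ‖((b.repr δ j : ℤ) : ℂ)‖ := by
      rw [Complex.norm_intCast]
    show |((b.repr δ j : ℤ) : ℝ)| ≤ _
    rw [h3, h1]
    calc ‖∑ σ : K →ₐ[ℚ] ℂ, σ (y j * (δ : K))‖
        ≤ ∑ σ : K →ₐ[ℚ] ℂ, ‖σ (y j * (δ : K))‖ := norm_sum_le _ _
      _ ≤ ∑ σ : K →ₐ[ℚ] ℂ, ‖σ (y j)‖ * B := by
          refine Finset.sum_le_sum fun σ _ => ?_
          rw [map_mul, norm_mul]
          exact mul_le_mul_of_nonneg_left (hσ (σ : K →+* ℂ)) (norm_nonneg _)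
      _ = (∑ σ : K →ₐ[ℚ] ℂ, ‖σ (y j)‖) * B := by rw [Finset.sum_mul]
      _ ≤ (1 + ∑ j, ∑ σ : K →ₐ[ℚ] ℂ, ‖σ (y j)‖) * B := by
          refine mul_le_mul_of_nonneg_right ?_ hB
          have h4 := Finset.single_le_sum (f := fun j => ∑ σ : K →ₐ[ℚ] ℂ, ‖σ (y j)‖)
            (fun j _ => by positivity) (Finset.mem_univ j)
          linarith
  · intro δ m hm
    choose c hc using hm
    refine ⟨∑ j, c j • b j, ?_⟩
    have h1 := b.sum_repr δ
    rw [← h1, Finset.mul_sum]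
    refine Finset.sum_congr rfl fun j _ => ?_
    have h2 : b.repr δ j = m * c j := hc j
    rw [h2, mul_smul]
    simp only [zsmul_eq_mul]
  · intro f
    refine ⟨fun j => f (b j), fun δ => ?_⟩
    have h1 := b.sum_repr δ
    conv_lhs => rw [← h1, map_sum]
    refine Finset.sum_congr rfl fun j _ => ?_
    rw [map_zsmul, smul_eq_mul, mul_comm]
    rfl

end Pool.Agent.W688.QD
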